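import Pool.Agent.Helper58.R3.Stmts

set_option autoImplicit false
open Classical

/-!
# Module LA of the work on MP_7ef5a1_co: the edges between the layers
-/

namespace Pool.Agent.Helper58.R3

/-- One element `ψ^[k-c] v0` of the orbit in the boundary. -/
theorem la_core (h1 : ST_LYF) {m : ℕ} (H : SimpleGraph (Fin m)) (v0 : Fin m)
    (Z : Finset (Fin m)) (ψ : Fin m → Fin m) (k c : ℕ) (hs : SLC H v0 Z ψ k)
    (hc1 : 1 ≤ c) (hck : c ≤ k) (y : Fin m) (i j : ℕ)
    (hy : Lay Z ψ j y) (hij : i < j) (hl : Lay Z ψ (j - i) (ψ^[i] y))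
    (he : ψ^[i] y = ψ^[k - c] v0) :
    j ≤ k ∧ y = ψ^[k - j] v0 ∧ j - i = c := by
  obtain ⟨-, huniq, -, -, -, horb, -, hinj, -, -, -⟩ := h1 m H v0 Z ψ k hs
  have hcc : j - i = c := by
    have h2 := horb (k - c) (by omega)
    rw [← he] at h2
    have h3 := huniq _ _ _ hl h2
    omega
  have hyav : ∀ t < j, ψ^[t] y ∉ Z := hy.2
  have hvav : ∀ t < k, ψ^[t] v0 ∉ Z := hs.kl.2
  have hik : i ≤ k - c := by
    by_contra hcon
    push Not at hcon
    obtain ⟨s, hs'⟩ : ∃ s, i = (k - c) + (s + 1) := ⟨i - (k - c) - 1, by omega⟩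
    have h2 : ψ^[k - c] (ψ^[s + 1] y) = ψ^[k - c] v0 := by
      rw [← Function.iterate_add_apply, ← hs', he]
    have h3 : ψ^[s + 1] y = v0 := by
      refine hinj _ _ (k - c) ?_ ?_ h2
      · intro t ht
        rw [← Function.iterate_add_apply]
        exact hyav _ (by omega)
      · intro t ht
        exact hvav _ (by omega)
    rw [Function.iterate_succ_apply'] at h3
    exact hs.we.nv _ (hyav s (by omega)) h3
  have hjk : j ≤ k := by omega
  refine ⟨hjk, ?_, hcc⟩
  have h4 : ψ^[i] y = ψ^[i] (ψ^[k - j] v0) := by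
    rw [← Function.iterate_add_apply, he]
    congr 2
    omega
  refine hinj _ _ i ?_ ?_ h4
  · intro t ht
    exact hyav _ (by omega)
  · intro t ht
    rw [← Function.iterate_add_apply]
    exact hvav _ (by omega)

/-- LA: the edges between the layers. -/
theorem st_LA (h1 : ST_LYF) : ST_LA := by
  intro m H v0 Z ψ k c c' d hB x y i j t hx hy hij hadj ht
  have hs := hB.s
  obtain ⟨-, huniq, -, -, -, -, -, -, -, hedge, -⟩ := h1 m H v0 Z ψ k hs
  obtain ⟨hnb, hl⟩ := hedge x y i j hx hy hij hadj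
  have hcc := hB.cc
  have hc1 := hB.c1
  have hc1' := hB.c1'
  rcases (hB.D _).1 hnb with he | he | he
  · obtain ⟨h5, h6, h7⟩ := la_core h1 H v0 Z ψ k c hs hc1 (by omega) y i j hy hij hl he
    exact Or.inl ⟨h5, h6, Or.inl h7⟩
  · obtain ⟨h5, h6, h7⟩ := la_core h1 H v0 Z ψ k c' hs hc1' (by omega) y i j hy hij hl he
    exact Or.inl ⟨h5, h6, Or.inr h7⟩
  · refine Or.inr ⟨?_, he⟩
    rw [he] at hl
    exact huniq _ _ _ hl ht

end Pool.Agent.Helper58.R3
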